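import Mathlib
import Pool.Agent.R475.SB.Spec
import Pool.Agent.R475.SB.Leaves

/-!
# The fourth-moment conjecture for spectra of distance graphs of binary codes is false

For a code `C` of length `n` and minimal distance `d = ⌊δ n⌋` the conjecture bounds the ratio
`‖λ‖₄ / ‖λ‖₂` of the normalised norms of the vector `λ` of the eigenvalues of every
`2 ^ o(n)`-balanced distance graph `G(C, i)`, `d ≤ i ≤ (1 + ε) d`, by `2 ^ (c ε n + o(n))`. It fails
for **every** `0 < δ < 1 / 2`, every constant `c` and `ε = 0`, `t = 1`, `i = d`: the code consisting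
of the zero word and of exponentially many words of weight `d` with mutual distances larger than `d`
has minimal distance `d`, its distance-`d` graph is a star `K_{1,m}`, which is `1`-balanced, and
`‖λ‖₄ / ‖λ‖₂ = ((m + 1) / 2) ^ (1 / 4)` is exponentially large.
-/

set_option autoImplicit false

open Finset Filter Asymptotics

namespace Pool.Agent.Results.MP_5eddec_co.StarCounterexample

/-- `C` is a binary code with minimal distance `d`: any two distinct elements are at Hamming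
distance at least `d`. -/
def IsCode {n : ℕ} (C : Finset (Fin n → Bool)) (d : ℕ) : Prop :=
  ∀ x ∈ C, ∀ y ∈ C, x ≠ y → d ≤ hammingDist x y

/-- The distance-`i` graph `G(C, i)`. -/
def distGraph {n : ℕ} (C : Finset (Fin n → Bool)) (i : ℕ) : SimpleGraph C where
  Adj x y := x ≠ y ∧ hammingDist x.1 y.1 = i
  symm := ⟨fun x y h => ⟨h.1.symm, by rw [hammingDist_comm]; exact h.2⟩⟩
  loopless := ⟨fun _ h => h.1 rfl⟩

/-- The graph `G` has an edge and is `t`-balanced: `|E(X, X)| / |X| ≤ t |E| / |V|` for every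
nonempty set `X` of vertices, where `E(X, X)` is the set of the edges with both endpoints in `X`. -/
def Balanced {V : Type*} [Fintype V] (t : ℝ) (G : SimpleGraph V) : Prop :=
  G.edgeSet.Nonempty ∧ ∀ X : Finset V, X.Nonempty →
    (({e ∈ G.edgeSet | ∀ v ∈ e, v ∈ X}.ncard : ℕ) : ℝ) / #X ≤
      t * ((G.edgeSet.ncard : ℝ) / Fintype.card V)

open Classical in
/-- The norm `‖λ‖_p = ((1 / |V|) ∑_j |λ_j| ^ p) ^ (1 / p)` of the vector of the eigenvalues of the
adjacency matrix of `G`. -/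
noncomputable def specNorm {V : Type*} [Fintype V] (p : ℕ) (G : SimpleGraph V) : ℝ :=
  ((∑ v, |(Pool.Agent.R475.SB.adj_isHermitian G).eigenvalues v| ^ p) / (Fintype.card V : ℝ)) ^
    (1 / (p : ℝ))

/-- The constant `c*(δ)` of the problem. -/
noncomputable def cStar (δ : ℝ) : ℝ :=
  δ * (1 - 2 * δ) * Real.logb 2
    ((1 / 2 + Real.sqrt (δ * (1 - δ))) / (1 / 2 - Real.sqrt (δ * (1 - δ)))) /
    (16 * Real.sqrt (δ * (1 - δ)))

/-- The assertion of Q1 for one `δ`, with the constant `c` in the place of `c*(δ)`. -/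
def Conjecture (δ c : ℝ) : Prop :=
  ∃ ε₀ : ℝ, 0 < ε₀ ∧ ∀ ε : ℝ, 0 ≤ ε → ε ≤ ε₀ → ∀ t : ℕ → ℝ, (∀ n, 1 ≤ t n) →
    (fun n => Real.logb 2 (t n)) =o[atTop] (fun n : ℕ => (n : ℝ)) →
    ∃ g : ℕ → ℝ, g =o[atTop] (fun n : ℕ => (n : ℝ)) ∧
      ∀ (n : ℕ) (C : Finset (Fin n → Bool)) (i : ℕ), IsCode C ⌊δ * n⌋₊ → 1 ≤ i →
        ⌊δ * n⌋₊ ≤ i → (i : ℝ) ≤ (1 + ε) * ⌊δ * n⌋₊ → Balanced (t n) (distGraph C i) →
        specNorm 4 (distGraph C i) / specNorm 2 (distGraph C i) ≤ (2 : ℝ) ^ (c * ε * n + g n)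

open Pool.Agent.R475.SB in
theorem exists_star {δ : ℝ} (h0 : 0 < δ) (h1 : δ < 1 / 2) :
    ∃ η : ℝ, 0 < η ∧ ∃ N : ℕ, ∀ n : ℕ, N ≤ n → 1 ≤ ⌊δ * n⌋₊ ∧ ∃ C : Finset (Fin n → Bool),
      IsCode C ⌊δ * n⌋₊ ∧ Balanced 1 (distGraph C ⌊δ * n⌋₊) ∧
      (2 : ℝ) ^ (η * n) ≤
        specNorm 4 (distGraph C ⌊δ * n⌋₊) / specNorm 2 (distGraph C ⌊δ * n⌋₊) := by
  classical
  obtain ⟨κ, hκ, N, hN⟩ := exists_leaves h0 h1
  obtain ⟨N₁, hN₁⟩ := exists_nat_gt (1 / δ)
  obtain ⟨N₂, hN₂⟩ := exists_nat_gt (4 / κ)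
  refine ⟨κ / 8, by positivity, max N (max N₁ N₂), fun n hn => ?_⟩
  have hn0 : N ≤ n := le_trans (le_max_left _ _) hn
  have hn1 : (N₁ : ℝ) ≤ n := by
    exact_mod_cast le_trans (le_trans (le_max_left _ _) (le_max_right _ _)) hn
  have hn2 : (N₂ : ℝ) ≤ n := by
    exact_mod_cast le_trans (le_trans (le_max_right _ _) (le_max_right _ _)) hn
  obtain ⟨L, hL1, hL2, hL3⟩ := hN n hn0
  have hd : 1 ≤ ⌊δ * n⌋₊ := by
    rw [Nat.one_le_floor_iff]
    rw [div_lt_iff₀ h0] at hN₁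
    have := mul_le_mul_of_nonneg_left hn1 h0.le
    linarith
  refine ⟨hd, ?_⟩
  generalize ⌊δ * n⌋₊ = d at hL1 hL2 hd
  set z : Fin n → Bool := fun _ => false with hz
  have hzL : z ∉ L := by
    intro h
    have := hL1 z h
    rw [hammingDist_self] at this
    omega
  set C : Finset (Fin n → Bool) := insert z L with hC
  have hzC : z ∈ C := Finset.mem_insert_self _ _
  have hcard : Fintype.card C = #L + 1 := by
    rw [Fintype.card_coe, hC, Finset.card_insert_of_notMem hzL]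
  have hstar : IsStar (distGraph C d) ⟨z, hzC⟩ := by
    intro x y
    obtain ⟨x, hx⟩ := x
    obtain ⟨y, hy⟩ := y
    change (_ ∧ _) ↔ _
    simp only [ne_eq, Subtype.mk.injEq]
    refine and_congr_right fun hxy => ?_
    constructor
    · intro hdist
      by_contra hcon
      rw [not_or] at hcon
      have hx' : x ∈ L := (Finset.mem_insert.1 hx).resolve_left hcon.1
      have hy' : y ∈ L := (Finset.mem_insert.1 hy).resolve_left hcon.2
      have := hL2 x hx' y hy' hxy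
      omega
    · rintro (rfl | rfl)
      · exact hL1 y ((Finset.mem_insert.1 hy).resolve_left fun h => hxy h.symm)
      · rw [hammingDist_comm]
        exact hL1 x ((Finset.mem_insert.1 hx).resolve_left hxy)
  have hκn : (4 : ℝ) ≤ κ * n := by
    rw [div_lt_iff₀ hκ] at hN₂
    have := mul_le_mul_of_nonneg_left hn2 hκ.le
    linarith
  have hm : 1 ≤ #L := by
    have : (0 : ℝ) < #L := lt_of_lt_of_le (by positivity) hL3
    exact_mod_cast this
  have hedge := hstar.edge_card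
  rw [hcard] at hedge
  refine ⟨C, ?_, ⟨?_, ?_⟩, ?_⟩
  · intro x hx y hy hxy
    rcases Finset.mem_insert.1 hx with rfl | hx'
    · exact (hL1 y ((Finset.mem_insert.1 hy).resolve_left fun h => hxy h.symm)).ge
    · rcases Finset.mem_insert.1 hy with rfl | hy'
      · rw [hammingDist_comm]
        exact (hL1 x hx').ge
      · exact (hL2 x hx' y hy' hxy).le
  · apply Set.nonempty_of_ncard_ne_zero
    omega
  · intro X hX
    have h3 := hstar.edgesIn_le X hX
    have hXp : (0 : ℝ) < #X := by exact_mod_cast hX.card_pos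
    have hXle : #X ≤ #L + 1 := by
      rw [← hcard]; exact Finset.card_le_univ X
    have e1 : ((distGraph C d).edgeSet.ncard : ℝ) = #L := by
      have : (distGraph C d).edgeSet.ncard = #L := by omega
      exact_mod_cast this
    have e2 : (({e ∈ (distGraph C d).edgeSet | ∀ v ∈ e, v ∈ X}.ncard : ℕ) : ℝ) ≤ #X - 1 := by
      have : (({e ∈ (distGraph C d).edgeSet | ∀ v ∈ e, v ∈ X}.ncard + 1 : ℕ) : ℝ) ≤ #X := by
        exact_mod_cast h3
      push_cast at this
      linarith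
    have e3 : (#X : ℝ) ≤ #L + 1 := by exact_mod_cast hXle
    rw [one_mul, hcard, e1, div_le_div_iff₀ hXp (by positivity)]
    push_cast
    nlinarith
  · have hr := @IsStar.ratio C _ (fun a b => Classical.propDecidable (a = b)) (distGraph C d)
      ⟨z, hzC⟩ hstar (fun a b => Classical.propDecidable _) #L hm hcard
      ((2 : ℝ) ^ (κ / 8 * n)) (by positivity) (by
      rw [← Real.rpow_natCast, ← Real.rpow_mul (by norm_num)]
      have h5 : (2 : ℝ) ^ (κ / 8 * n * ((4 : ℕ) : ℝ)) * 4 ≤ (2 : ℝ) ^ (κ * n) := by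
        rw [show (4 : ℝ) = (2 : ℝ) ^ (2 : ℝ) by norm_num, ← Real.rpow_add (by norm_num)]
        refine Real.rpow_le_rpow_of_exponent_le (by norm_num) ?_
        push_cast
        linarith
      rw [le_div_iff₀ (by norm_num)]
      linarith)
    unfold specNorm
    rw [show (1 / ((4 : ℕ) : ℝ)) = 1 / (4 : ℝ) by norm_num,
      show (1 / ((2 : ℕ) : ℝ)) = 1 / (2 : ℝ) by norm_num]
    exact hr

/-- **The fourth-moment conjecture for distance graphs of binary codes fails.** -/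
theorem result :
    -- (1) balanced distance graphs with exponentially large `‖λ‖₄ / ‖λ‖₂`
    (∀ δ : ℝ, 0 < δ → δ < 1 / 2 → ∃ η : ℝ, 0 < η ∧ ∃ N : ℕ, ∀ n : ℕ, N ≤ n →
      ∃ C : Finset (Fin n → Bool), IsCode C ⌊δ * n⌋₊ ∧ Balanced 1 (distGraph C ⌊δ * n⌋₊) ∧
        (2 : ℝ) ^ (η * n) ≤
          specNorm 4 (distGraph C ⌊δ * n⌋₊) / specNorm 2 (distGraph C ⌊δ * n⌋₊)) ∧
    -- (2) the conjecture fails for every `δ` and every constant `c`
    (∀ δ c : ℝ, 0 < δ → δ < 1 / 2 → ¬ Conjecture δ c) ∧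
    -- (3) in particular Q1 has a negative answer
    ¬ (∀ δ : ℝ, 0 < δ → δ < 1 / 2 → Conjecture δ (cStar δ)) := by
  have h2 : ∀ δ c : ℝ, 0 < δ → δ < 1 / 2 → ¬ Conjecture δ c := by
    rintro δ c h0 h1 ⟨ε₀, hε₀, H⟩
    obtain ⟨η, hη, N, hN⟩ := exists_star h0 h1
    obtain ⟨g, hg, hH⟩ := H 0 le_rfl hε₀.le (fun _ => 1) (fun _ => le_rfl) (by simp)
    have hg' := hg.def (half_pos hη)
    obtain ⟨n, hn, hgn⟩ : ∃ n : ℕ, max N 1 ≤ n ∧ ‖g n‖ ≤ η / 2 * ‖(n : ℝ)‖ := by
      obtain ⟨n, h⟩ := ((eventually_ge_atTop (max N 1)).and hg').exists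
      exact ⟨n, h⟩
    obtain ⟨hd, C, hC, hb, hr⟩ := hN n (le_trans (le_max_left _ _) hn)
    have h3 := hH n C ⌊δ * n⌋₊ hC hd le_rfl (by simp) hb
    have hnpos : (0 : ℝ) < n := by
      have h9 : 1 ≤ n := le_trans (le_max_right _ _) hn
      exact_mod_cast h9
    have h4 := hr.trans h3
    rw [Real.rpow_le_rpow_left_iff (by norm_num)] at h4
    rw [Real.norm_of_nonneg hnpos.le] at hgn
    have h5 := (le_abs_self (g n)).trans hgn
    have h6 : 0 < η / 2 * n := by positivity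
    have h7 : η * n = η / 2 * n + η / 2 * n := by ring
    have h8 : c * 0 * n = 0 := by ring
    linarith
  refine ⟨fun δ h0 h1 => ?_, h2, fun h => h2 (1 / 4) (cStar (1 / 4)) (by norm_num) (by norm_num)
    (h (1 / 4) (by norm_num) (by norm_num))⟩
  obtain ⟨η, hη, N, hN⟩ := exists_star h0 h1
  exact ⟨η, hη, N, fun n hn => (hN n hn).2⟩

end Pool.Agent.Results.MP_5eddec_co.StarCounterexample
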